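import Pool.Agent.H2.LN.Top

/-!
Assembly of the theorem for regular graphs from the blocks.
-/

set_option autoImplicit false

namespace Pool.Agent.H2.LN

open Finset Classical
open Pool.Agent.H65.GI

theorem asm (hE : Top.EHP) (hB : Top.BasP) (hC : Top.ColP) (hR : Top.ResP) (hT : Top.TrnP)
    (hF : Top.FinP) : Top.MainP := by
  intro N Δ pm V _ G reg gap p hp1 hp2
  obtain ⟨χ, hχ⟩ := hE N Δ pm V G reg gap
  obtain ⟨s, D, H, cl, crd, M, z, hb⟩ := hB N Δ pm V G reg χ hχ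
  have hN : (2 : ℝ) ^ 40 ≤ N := by exact_mod_cast pm.big
  have hN0 : (0 : ℝ) < N := lt_of_lt_of_le (by norm_num) hN
  have hNΔ : (N : ℝ) ^ 40000 ≤ Δ := by exact_mod_cast pm.pow
  have hΔ0 : (0 : ℝ) < Δ := lt_of_lt_of_le (by positivity) hNΔ
  -- `2 p` is small compared with `Δ`
  have h31 : (N : ℝ) ^ 31 * (2 * N) ≤ Δ / 4 := by
    have h1 : (N : ℝ) ^ 34 ≤ (N : ℝ) ^ 40000 := pow_le_pow_right₀ (by linarith [show (1 : ℝ) ≤ 2 ^ 40 by norm_num]) (by norm_num)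
    have h2 : (N : ℝ) ^ 34 = N ^ 31 * N * (N * N) := by ring
    have h3 : (8 : ℝ) ≤ N * N := by nlinarith
    have h4 : (N : ℝ) ^ 31 * N * 8 ≤ N ^ 31 * N * (N * N) :=
      mul_le_mul_of_nonneg_left h3 (by positivity)
    nlinarith
  have hps : (2 * p : ℝ) ≤ 2 * N := by
    have : (p : ℝ) ≤ N := by exact_mod_cast hp2
    linarith
  have hs1 : (Δ : ℝ) / 2 ≤ s := by
    have h1 := hb.sge
    have h2 : (Δ : ℝ) / N ^ 49 / 1024 ≤ Δ / 2 := by
      rw [div_div]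
      apply div_le_div_of_nonneg_left hΔ0.le (by norm_num)
      have : (1 : ℝ) ≤ N ^ 49 := one_le_pow₀ (by linarith [show (1 : ℝ) ≤ 2 ^ 40 by norm_num])
      nlinarith
    linarith
  have h2N : (2 * N : ℝ) ≤ Δ / 4 := by
    have h1 : (1 : ℝ) ≤ N ^ 31 := one_le_pow₀ (by linarith [show (1 : ℝ) ≤ 2 ^ 40 by norm_num])
    nlinarith
  have hsp : 2 * p ≤ s := by
    have : (2 * p : ℝ) ≤ s := by linarith
    exact_mod_cast this
  obtain ⟨sc, hsc⟩ : ∃ sc, sc + 2 * p = s + 2 := ⟨s + 2 - 2 * p, by omega⟩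
  obtain ⟨ι, _, f, h, Fr, c1, fam, htr⟩ := hT N Δ pm V G reg s χ D H cl crd M z hb p hp1 hp2 sc hsc
  have hscR : (sc : ℝ) + 2 * p = s + 2 := by exact_mod_cast hsc
  have hsc1 : (Δ : ℝ) - Δ / N ^ 30 ≤ sc := by
    have h1 := hb.sge
    have e1 : (Δ : ℝ) / N ^ 49 / 1024 ≤ Δ / N ^ 30 / 2 := by
      rw [div_div, div_div]
      apply div_le_div_of_nonneg_left hΔ0.le (by positivity)
      have : (N : ℝ) ^ 30 ≤ N ^ 49 := pow_le_pow_right₀ (by linarith [show (1 : ℝ) ≤ 2 ^ 40 by norm_num]) (by norm_num)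
      nlinarith [show (0 : ℝ) < N ^ 30 by positivity]
    have e2 : (2 * N : ℝ) ≤ Δ / N ^ 30 / 2 := by
      rw [div_div, le_div_iff₀ (by positivity)]
      have : (N : ℝ) ^ 30 * (2 * N) ≤ N ^ 31 * (2 * N) := by
        apply mul_le_mul_of_nonneg_right _ (by positivity)
        exact pow_le_pow_right₀ (by linarith [show (1 : ℝ) ≤ 2 ^ 40 by norm_num]) (by norm_num)
      nlinarith
    linarith
  have hsc2 : sc ≤ Δ := by
    have h1 : (s : ℝ) ≤ Δ := by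
      have := hb.sle
      have h2 : (0 : ℝ) ≤ Δ / N ^ 50 := by positivity
      linarith
    have h2 : s ≤ Δ := by exact_mod_cast h1
    omega
  obtain ⟨c0, φ, hc0⟩ := hC N Δ pm V G reg gap sc hsc1 hsc2 ι c1 f h Fr fam
  obtain ⟨k1, ι', _, f', h', k2, k3, k4, htr2⟩ := htr c0 φ hc0 (fun v => c0 v + (p - 1)) (fun v => rfl)
  have hrg : ∀ v, p ≤ (fun v => (c0 v : ℕ) + (p - 1)) v + 1 ∧ (fun v => (c0 v : ℕ) + (p - 1)) v + p ≤ s := by
    intro v
    have := (c0 v).2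
    constructor
    · show p ≤ (c0 v : ℕ) + (p - 1) + 1
      omega
    · show (c0 v : ℕ) + (p - 1) + p ≤ s
      omega
  obtain ⟨Rc, al, hres⟩ := hR N Δ pm V G reg s χ D H cl crd M z hb p hp1 hp2
    (fun v => (c0 v : ℕ) + (p - 1)) hrg k1 ι' k2 f' h' k3 k4
  obtain ⟨M', hM'⟩ := htr2 Rc al hres
  refine hF N Δ pm V G reg s χ D H cl crd M z hb p hp1 hp2 _ hrg ?_ Rc al M' hM'
  intro u v huv h
  apply hc0.prop u v huv
  apply Fin.ext
  have h' : (c0 u : ℕ) + (p - 1) = (c0 v : ℕ) + (p - 1) := h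
  omega

end Pool.Agent.H2.LN
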