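import Mathlib
import Pool.Agent.H65.GI.Defs
import Pool.Agent.H70.HY.Defs

/-!
MP_b8729f, project LN (see /team-store/H2_LN.md and /team-store/H2_LN_V.md): the Havet-Yu bound for all graphs of large
maximum degree without small nearly regular spots.  Definitions of the interface.
Everywhere `open Finset Classical`, no `DecidableEq` arguments. `pr`, `ex`, `Loc`, `bl`, `Reg`: `H65/GI/Defs`.
-/

set_option autoImplicit false
set_option linter.unusedSectionVars false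

namespace Pool.Agent.H2.LN

open Finset Classical
open Pool.Agent.H65.GI

noncomputable section

/-! ## Parameters -/

/-- `N` is tiny compared with `Δ` (`N ≤ Δ ^ (1 / 40000)`), but larger than all powers of `log Δ` that matter. -/
structure Pm (N Δ : ℕ) : Prop where
  big : 2 ^ 40 ≤ N
  pow : N ^ 40000 ≤ Δ
  log : Real.log Δ ^ 10 ≤ N

/-- number of coordinates of the types -/
def k0 (N : ℕ) : ℕ := Nat.clog 2 (N ^ 50)

/-- the types (an abelian group): `k0` binary coordinates and a residue -/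
abbrev Ty (N : ℕ) : Type := (Fin (k0 N) → ZMod 2) × ZMod (N ^ 4 + 1)

/-- the number of types -/
def mT (N : ℕ) : ℕ := 2 ^ k0 N * (N ^ 4 + 1)

/-- number of matchings between two types -/
def d0 (N Δ : ℕ) : ℕ := ⌊(Δ : ℝ) / mT N * (1 - (Δ : ℝ) ^ (-(2 : ℝ) / 5))⌋₊

/-- the unit vector -/
def ev {k : ℕ} (i : Fin k) : Fin k → ZMod 2 := Pi.single i 1

/-- the exceptional first components of the classes -/
def Xi {k : ℕ} (z : Fin k) (ξ : Fin k → ZMod 2) : Prop :=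
  ξ = 0 ∨ (∃ i, ξ = ev i) ∨ ∃ i, i ≠ z ∧ ξ = ev i + ev z

/-! ## Graphs -/

/-- the number of pairs `(x, y)`, `x ∈ S`, `y ∈ S'`, `x y` an edge -/
def ee {V : Type} (G : SimpleGraph V) (S S' : Finset V) : ℕ :=
  ∑ x ∈ S, (S'.filter (fun y => G.Adj x y)).card

/-- no small nearly regular spots -/
def Gap {V : Type} (G : SimpleGraph V) (N Δ : ℕ) : Prop :=
  ∀ S : Finset V, S.card ≤ Δ ^ 13 → (ee G S S : ℝ) ≤ ((Δ : ℝ) - Δ / N) * S.card

/-- The output of the blocks E and H. -/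
structure EHo {V : Type} [Fintype V] (G : SimpleGraph V) (N Δ : ℕ) (χ : V → Ty N) : Prop where
  deg : ∀ v t, |((univ.filter (fun u => G.Adj v u ∧ χ u = t)).card : ℝ) - (Δ : ℝ) / mT N| ≤
    (Δ : ℝ) / mT N / N ^ 9
  exp : ∀ v t t', t ≠ t' → ∀ S S' : Finset V, S ⊆ bl G v (8 * N ^ 3) → S' ⊆ bl G v (8 * N ^ 3) →
    (∀ x ∈ S, χ x = t) → (∀ x ∈ S', χ x = t') → S.card ≤ Δ ^ 12 → S'.card ≤ Δ ^ 12 →
    (ee G S S' : ℝ) ≤ (1 - 1 / (100 * N)) * (Δ / mT N) * ((S.card + S'.card) / 2)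
  wts : ∀ t t', t ≠ t' → ∃ y : V → V → ℝ, (∀ u v, y u v = y v u) ∧
    (∀ u v, G.Adj u v → χ u = t → χ v = t' → 1 / 2 ≤ y u v ∧ y u v ≤ 1 - (Δ : ℝ) ^ (-(2 : ℝ) / 5) / 2) ∧
    (∀ v, χ v = t → |(∑ u ∈ univ.filter (fun u => G.Adj v u ∧ χ u = t'), y v u) - d0 N Δ| ≤
      (Δ : ℝ) ^ (-(23 : ℝ) / 10)) ∧
    ∀ v, χ v = t' → |(∑ u ∈ univ.filter (fun u => G.Adj v u ∧ χ u = t), y v u) - d0 N Δ| ≤
      (Δ : ℝ) ^ (-(23 : ℝ) / 10)

/-! ## The exact base -/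

/-- The base (section B5).  `χ`: types.  The class of an edge `u v` is `χ u + χ v`.
`H κ v`: the neighbours of `v` in the spanning subgraph of the class `κ` (used for the reserve classes).
`M α`: the matching of the label `α`, of class `cl α`; `crd α`: the coordinate of `α`.
`D`: the sparse set of the irregular vertices; `z`: the special coordinate. -/
structure Base {V : Type} [Fintype V] (G : SimpleGraph V) (N Δ s : ℕ) (χ : V → Ty N) (D : Finset V)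
    (H : Ty N → V → Finset V) (cl : Fin s → Ty N) (crd : Fin s → Fin (k0 N)) (M : Fin s → V → V)
    (z : Fin (k0 N)) : Prop where
  sle : (s : ℝ) + Δ / N ^ 50 ≤ Δ
  sge : (Δ : ℝ) - Δ / N ^ 49 / 1024 ≤ s
  Hsym : ∀ κ u v, u ∈ H κ v → v ∈ H κ u
  Hadj : ∀ κ u v, u ∈ H κ v → G.Adj v u ∧ χ v + χ u = κ
  Hle : ∀ κ v, (H κ v).card ≤ d0 N Δ
  Hge : ∀ κ v, κ.1 ≠ 0 → d0 N Δ ≤ (H κ v).card + 1
  Heq : ∀ κ v, κ.1 ≠ 0 → v ∉ D → (H κ v).card = d0 N Δ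
  clX : ∀ α, ¬ Xi z (cl α).1
  crz : ∀ α, crd α ≠ z
  cr1 : ∀ α, (cl α).1 (crd α) = 1
  inv : ∀ α v, M α (M α v) = v
  adj : ∀ α v, M α v ≠ v → G.Adj v (M α v) ∧ χ v + χ (M α v) = cl α
  dis : ∀ α β v, α ≠ β → M α v ≠ v → M α v ≠ M β v
  off : ∀ α v, v ∉ D → M α v ≠ v
  on : ∀ v, (univ.filter (fun α => M α v = v)).card ≤ 1
  sep : ∀ u ∈ D, ∀ v ∈ D, u ≠ v → ¬ G.Adj u v ∧ ∀ x, ¬ (G.Adj u x ∧ G.Adj x v)
  few : ∀ v, ((bl G v 2).filter (fun x => x ∈ D)).card ≤ N ^ 5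
  mix : ∀ κ v (f : V → ℝ), κ.1 ≠ 0 → (∀ x, 0 ≤ f x) → (∀ x, x ∉ bl G v (7 * N ^ 3) → f x = 0) →
    ∑ x, f x ≤ 1 → ∑ x, ((∑ y ∈ H κ x, f y) / d0 N Δ) ^ 2 ≤
      (1 - 1 / (10 ^ 5 * N ^ 2)) * (∑ x, f x ^ 2) + 4 / Δ ^ 12

/-! ## Test functions -/

/-- linear test functions centred at `v` -/
structure LinF {V : Type} [Fintype V] (G : SimpleGraph V) (N Δ : ℕ) (v : V) (f : V → ℝ) : Prop where
  nn : ∀ x, 0 ≤ f x
  sp : ∀ x, x ∉ bl G v (60 * N ^ 3) → f x = 0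
  l1 : ∑ x, f x ≤ 1
  l2 : ∑ x, f x ^ 2 ≤ 16 * N ^ 3 / Δ ^ 12

/-- bilinear test functions centred at `v` -/
structure BilF {V : Type} [Fintype V] (G : SimpleGraph V) (N Δ : ℕ) (v : V) (h : V → V → ℝ) : Prop where
  nn : ∀ x y, 0 ≤ h x y
  spx : ∀ x y, x ∉ bl G v (60 * N ^ 3) → h x y = 0
  spy : ∀ x y, y ∉ bl G v (60 * N ^ 3) → h x y = 0
  dg : ∀ x, h x x = 0
  l1 : ∑ x, ∑ y, h x y ≤ 16
  rw : ∑ x, (∑ y, h x y) ^ 2 ≤ 4096 * N ^ 3 / Δ ^ 12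
  cm : ∑ y, (∑ x, h x y) ^ 2 ≤ 4096 * N ^ 3 / Δ ^ 12

/-! ## The vertex colours and the small random set -/

/-- `v ∈ W_α`: the vertex label of `v` is too close to `α`. -/
def Wc {V : Type} (p : ℕ) (c : V → ℕ) (α : ℕ) (v : V) : Prop := c v < α + p ∧ α < c v + p

/-- `v` is good for `α` -/
def Gd {V : Type} {s : ℕ} (p : ℕ) (c : V → ℕ) (D : Finset V) (M : Fin s → V → V) (α : Fin s) (v : V) :
    Prop := v ∉ D ∧ ¬ Wc p c α v ∧ M α v ≠ v ∧ ¬ Wc p c α (M α v)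

/-- the neighbours `u` of `v` such that the edge `u v` is in no `M α`, or in one that is useless because
of the vertex labels -/
def Es {V : Type} [Fintype V] (G : SimpleGraph V) {s : ℕ} (p : ℕ) (c : V → ℕ) (M : Fin s → V → V) (v : V) :
    Finset V := univ.filter (fun u => G.Adj v u ∧ ∀ α, M α v = u → Wc p c α v ∨ Wc p c α u)

/-- `v ∈ Res_α`.  `Rc`: the vertices with a coin, `al`: their labels. -/
def Rs {V : Type} [Fintype V] (G : SimpleGraph V) {s : ℕ} (p : ℕ) (c : V → ℕ) (D : Finset V)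
    (M : Fin s → V → V) (Rc : Finset V) (al : V → Fin s) (α : Fin s) (v : V) : Prop :=
  v ∈ Rc ∧ al v = α ∧ Gd p c D M α v ∧ (∀ u ∈ Es G p c M v, u ∉ Rc) ∧ M α v ∉ Rc

/-- the coins of `Res` have probability `1 / rq` -/
def rq (Δ s : ℕ) : ℕ := 16 * (Δ - s)

/-- The events of section V3 for a family of linear and bilinear tests. -/
structure ResE {V : Type} [Fintype V] (G : SimpleGraph V) (N Δ s : ℕ) (p : ℕ) (c : V → ℕ) (D : Finset V)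
    (H : Ty N → V → Finset V) (M : Fin s → V → V) {ι : Type} (f : V → ι → V → ℝ)
    (h : V → ι → V → V → ℝ) (Rc : Finset V) (al : V → Fin s) : Prop where
  a : ∀ v, (univ.filter (fun u => G.Adj v u ∧ u ∈ Rc)).card ≤ N ^ 51
  b : ∀ α κ v, ((H κ v).filter (fun u => Rs G p c D M Rc al α u ∨ Rs G p c D M Rc al α (M α u))).card ≤ N ^ 5
  c1 : ∀ v i α, 1 / (rq Δ s * s : ℝ) / 2 * (∑ x, if Gd p c D M α x then f v i x else 0) -
    1 / (Δ : ℝ) ^ 3 ≤ ∑ x, if Rs G p c D M Rc al α x then f v i x else 0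
  c2 : ∀ v i α, (∑ x, if Rs G p c D M Rc al α x then f v i x else 0) ≤
    2 * (1 / (rq Δ s * s : ℝ)) * (∑ x, f v i x) + 1 / (Δ : ℝ) ^ 3
  d : ∀ v i α, (∑ x, if x ∈ Rc ∧ M α x ∈ Rc ∧ M α x ≠ x then f v i x else 0) ≤
    2 * (1 / (rq Δ s : ℝ)) ^ 2 * (∑ x, f v i x) + 1 / (Δ : ℝ) ^ 3
  e : ∀ v i α, (∑ x, ∑ y, if Rs G p c D M Rc al α x ∧ y ∈ Rc ∧ M α y ∈ Rc ∧ M α y ≠ y then h v i x y
    else 0) ≤ 2 * (1 / (rq Δ s * s : ℝ)) * (1 / (rq Δ s : ℝ)) * (∑ x, ∑ y, h v i x y) +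
    (Δ : ℝ) ^ (-(7 : ℝ) / 2)

end

end Pool.Agent.H2.LN
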