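import Pool.Agent.H2.LN.Top
import Pool.Agent.H65.GI.Fnl

/-!
From the explicit parameters to `Δ ^ (1 / 40001)`; regularisation.
-/

set_option autoImplicit false

namespace Pool.Agent.H2.LN

open Finset Classical
open Pool.Agent.H65.GI

theorem fin_ev : ∃ D0 : ℕ, ∀ Δ : ℕ, D0 ≤ Δ → Pm ⌊(Δ : ℝ) ^ (1 / 40000 : ℝ)⌋₊ Δ ∧
    2 * (Δ : ℝ) ^ (1 / 40001 : ℝ) ≤ (⌊(Δ : ℝ) ^ (1 / 40000 : ℝ)⌋₊ : ℝ) := by
  have e1 : ∀ᶠ x : ℝ in Filter.atTop, (2 : ℝ) ^ 40 + 1 ≤ x ^ (1 / 40000 : ℝ) :=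
    (tendsto_rpow_atTop (by norm_num)).eventually_ge_atTop _
  have e2 : ∀ᶠ x : ℝ in Filter.atTop, Real.log x ^ 10 ≤ 1 / 2 * x ^ (1 / 40000 : ℝ) := by
    have h := isLittleO_log_rpow_rpow_atTop (10 : ℝ) (show (0 : ℝ) < 1 / 40000 by norm_num)
    have h' := h.bound (show (0 : ℝ) < 1 / 2 by norm_num)
    filter_upwards [h', Filter.eventually_ge_atTop (1 : ℝ)] with x hx h1
    rw [Real.norm_of_nonneg (Real.rpow_nonneg (Real.log_nonneg h1) _),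
      Real.norm_of_nonneg (Real.rpow_nonneg (by linarith) _)] at hx
    have : Real.log x ^ 10 = Real.log x ^ (10 : ℝ) := by
      rw [show (10 : ℝ) = ((10 : ℕ) : ℝ) by norm_num, Real.rpow_natCast]
    rw [this]
    exact hx
  have e3 : ∀ᶠ x : ℝ in Filter.atTop, x ^ (1 / 40001 : ℝ) ≤ 1 / 4 * x ^ (1 / 40000 : ℝ) := by
    have h : ∀ᶠ x : ℝ in Filter.atTop, (4 : ℝ) ≤ x ^ (1 / 40000 - 1 / 40001 : ℝ) :=
      (tendsto_rpow_atTop (by norm_num)).eventually_ge_atTop _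
    filter_upwards [h, Filter.eventually_ge_atTop (1 : ℝ)] with x hx h1
    have h2 : x ^ (1 / 40000 : ℝ) = x ^ (1 / 40001 : ℝ) * x ^ (1 / 40000 - 1 / 40001 : ℝ) := by
      rw [← Real.rpow_add (by linarith)]
      norm_num
    rw [h2]
    have h3 : 0 ≤ x ^ (1 / 40001 : ℝ) := Real.rpow_nonneg (by linarith) _
    nlinarith
  have e4 := (e1.and (e2.and e3)).and (Filter.eventually_ge_atTop (1 : ℝ))
  have e5 : ∀ᶠ n : ℕ in Filter.atTop, ((2 : ℝ) ^ 40 + 1 ≤ (n : ℝ) ^ (1 / 40000 : ℝ) ∧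
      Real.log n ^ 10 ≤ 1 / 2 * (n : ℝ) ^ (1 / 40000 : ℝ) ∧
      (n : ℝ) ^ (1 / 40001 : ℝ) ≤ 1 / 4 * (n : ℝ) ^ (1 / 40000 : ℝ)) ∧ (1 : ℝ) ≤ n :=
    tendsto_natCast_atTop_atTop.eventually e4
  obtain ⟨D0, hD0⟩ := Filter.eventually_atTop.1 e5
  refine ⟨D0, fun Δ hΔ => ?_⟩
  obtain ⟨⟨h1, h2, h3⟩, h4⟩ := hD0 Δ hΔ
  set y : ℝ := (Δ : ℝ) ^ (1 / 40000 : ℝ) with hy
  have hy0 : 0 ≤ y := by linarith [show (0 : ℝ) ≤ 2 ^ 40 by norm_num]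
  have hf1 : (⌊y⌋₊ : ℝ) ≤ y := Nat.floor_le hy0
  have hf2 : y < (⌊y⌋₊ : ℝ) + 1 := Nat.lt_floor_add_one y
  have hbig : (2 : ℝ) ^ 40 ≤ (⌊y⌋₊ : ℝ) := by linarith
  have h1R : (1 : ℝ) ≤ (⌊y⌋₊ : ℝ) := by linarith [show (1 : ℝ) ≤ 2 ^ 40 by norm_num]
  refine ⟨⟨by exact_mod_cast hbig, ?_, by linarith⟩, by linarith⟩
  have h5 : (⌊y⌋₊ : ℝ) ^ 40000 ≤ Δ := by
    calc (⌊y⌋₊ : ℝ) ^ 40000 ≤ y ^ 40000 := pow_le_pow_left₀ (by positivity) hf1 _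
      _ = (Δ : ℝ) := by
        rw [hy, ← Real.rpow_natCast, ← Real.rpow_mul (by linarith)]
        norm_num
  exact_mod_cast h5

theorem final_of (hR : Top.RegP) (hM : Top.MainP) : Top.Final := by
  obtain ⟨D0, hD0⟩ := fin_ev
  refine ⟨max D0 1, fun V _ G Δ hΔ hdeg hsp p hp1 hp2 => ?_⟩
  obtain ⟨pm, h2⟩ := hD0 Δ ((le_max_left _ _).trans hΔ)
  have hΔ1 : (1 : ℝ) ≤ Δ := by exact_mod_cast (le_max_right _ _).trans hΔ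
  set N : ℕ := ⌊(Δ : ℝ) ^ (1 / 40000 : ℝ)⌋₊ with hN
  have hN0 : (0 : ℝ) < N := by
    have : (2 : ℝ) ^ 40 ≤ N := by exact_mod_cast pm.big
    linarith [show (0 : ℝ) < 2 ^ 40 by norm_num]
  have hx0 : (0 : ℝ) < (Δ : ℝ) ^ (1 / 40001 : ℝ) := Real.rpow_pos_of_pos (by linarith) _
  have hkey : 2 * (Δ : ℝ) / N ≤ (Δ : ℝ) ^ (1 - 1 / 40001 : ℝ) := by
    rw [Real.rpow_sub (by linarith), Real.rpow_one, div_le_div_iff₀ hN0 hx0]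
    nlinarith
  obtain ⟨W, instW, G', φ, hφ, hGG, hreg, hgap⟩ := hR N Δ pm V G hdeg (fun S hS => by
    refine (hsp S hS).trans ?_
    apply mul_le_mul_of_nonneg_right _ (Nat.cast_nonneg _)
    linarith)
  refine Fnl_restrict G G' φ hφ hGG Δ p (hM N Δ pm W G' hreg hgap p hp1 ?_)
  have h3 : (p : ℝ) ≤ N := by linarith
  exact_mod_cast h3

end Pool.Agent.H2.LN
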