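import Pool.Agent.H2.LN.Top
import Pool.Agent.H64.LN.K6
import Pool.Agent.H12.LN.Tools
import Pool.Agent.H65.GI.Lll

/-!
MP_b8729f, project LN, blocks E and H: definitions.
`T`: the set of types (finite), functions of `χ : V → T` with the uniform measure (`pr`, `ex`: `H65/GI/Defs`).
`PM G Δ`: the matrix of the random walk (`H64/LN/K6`).
-/

set_option autoImplicit false
set_option linter.unusedSectionVars false

namespace Pool.Agent.H2.LN.HH

open Finset Classical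
open Pool.Agent.H65.GI Pool.Agent.H64.LN

noncomputable section

/-- functions of the types -/
abbrev Fn (V T : Type) : Type := (V → T) → ℝ

variable {V T : Type} [Fintype V] [Fintype T]

/-- the `L²`-norm -/
def nm (F : Fn V T) : ℝ := Real.sqrt (ex (fun χ => F χ ^ 2))

/-- average over the type of `a` -/
def Ea (a : V) (F : Fn V T) : Fn V T := fun χ => (∑ t, F (Function.update χ a t)) / Fintype.card T

/-- the part that depends on the type of `a` -/
def Da (a : V) (F : Fn V T) : Fn V T := fun χ => F χ - Ea a F χ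

/-- give `a` the type `t` -/
def sb (a : V) (t : T) (F : Fn V T) : Fn V T := fun χ => F (Function.update χ a t)

/-- degree at most `d`: a linear combination of functions of `d` coordinates -/
def Dg (d : ℕ) (F : Fn V T) : Prop :=
  F ∈ Submodule.span ℝ {f : Fn V T | ∃ S : Finset V, S.card ≤ d ∧ Loc f S}

/-- `m 1[χ v = t] - 1` -/
def om (t : T) (v : V) : Fn V T := fun χ => if χ v = t then (Fintype.card T : ℝ) - 1 else -1

variable (G : SimpleGraph V) (Δ : ℕ)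

/-- `P ^ i f` -/
def Pf (i : ℕ) (f : V → Fn V T) (v : V) : Fn V T := fun χ => ∑ w, (PM G Δ ^ i) v w * f w χ

/-- `∑_{i even < K} P ^ i p - ∑_{i odd < K} P ^ i q` -/
def fA (K : ℕ) (p q : V → Fn V T) (v : V) : Fn V T := fun χ =>
  ∑ i ∈ range K, if Even i then Pf G Δ i p v χ else - Pf G Δ i q v χ

/-- the mean of `A_v + B_w` if `χ v = t`, `χ w = t'` -/
def mu (K : ℕ) (t t' : T) (p q : V → Fn V T) (v w : V) : ℝ :=
  ex (fun χ : V → T => fA G Δ K p q v (Function.update (Function.update χ v t) w t') +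
    fA G Δ K q p w (Function.update (Function.update χ v t) w t'))

/-- the error field before the substitution of `t` -/
def nx0 (K : ℕ) (t t' : T) (p q : V → Fn V T) (v : V) : Fn V T := fun χ =>
  Pf G Δ K p v χ - fA G Δ K p q v χ * Pf G Δ 1 (om t') v χ -
    Pf G Δ 1 (fun w χ => om t' w χ * fA G Δ K q p w χ) v χ +
    ∑ w, PM G Δ v w * mu G Δ K t t' p q v w * (1 + om t' w χ)

/-- the next error field -/
def nx (K : ℕ) (t t' : T) (p q : V → Fn V T) (v : V) : Fn V T := sb v t (nx0 G Δ K t t' p q v)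

/-- the error fields: `ps k t t'` lives on the vertices of type `t` (with respect to the type `t'`) -/
def ps (K : ℕ) : ℕ → T → T → V → Fn V T
  | 0, _, t' => fun v χ => - Pf G Δ 1 (om t') v χ
  | k + 1, t, t' => nx G Δ K t t' (ps K k t t') (ps K k t' t)

/-- Properties of an error field. -/
structure Fl (d ρ : ℕ) (x y : ℝ) (f : V → Fn V T) : Prop where
  own : ∀ v χ t, f v (Function.update χ v t) = f v χ
  mean : ∀ v, ex (f v) = 0
  dg : ∀ v, Dg d (f v)
  lo : ∀ v, Loc (f v) (bl G v ρ)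
  n1 : ∀ v, nm (f v) ≤ x
  n2 : ∀ a, ∑ v, nm (Da a (f v)) ^ 2 ≤ x ^ 2
  s1 : ∀ v, ∑ a, nm (Da a (f v)) ≤ y
  s2 : ∀ a, ∑ v, nm (Da a (f v)) ≤ y

/-- Properties of the fields `A`, `B`. -/
structure Af (d ρ : ℕ) (x y : ℝ) (f : V → Fn V T) : Prop where
  mean : ∀ v, ex (f v) = 0
  dg : ∀ v, Dg d (f v)
  lo : ∀ v, Loc (f v) (bl G v ρ)
  n1 : ∀ v, nm (f v) ≤ x
  n2 : ∀ a, ∑ v, nm (Da a (f v)) ^ 2 ≤ x ^ 2
  o1 : ∀ v, nm (Da v (f v)) ≤ x / Real.sqrt Δ
  o2 : ∀ a, ∑ w, nm (Da w (Da a (f w))) ^ 2 ≤ d * x ^ 2 / Δ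
  s1 : ∀ v, ∑ a, nm (Da a (f v)) ≤ y
  s2 : ∀ a, ∑ v, nm (Da a (f v)) ≤ y

/-- Bounds for a field (without the structural properties). -/
structure Bd (x y : ℝ) (f : V → Fn V T) : Prop where
  n1 : ∀ v, nm (f v) ≤ x
  n2 : ∀ a, ∑ v, nm (Da a (f v)) ^ 2 ≤ x ^ 2
  s1 : ∀ v, ∑ a, nm (Da a (f v)) ≤ y
  s2 : ∀ a, ∑ v, nm (Da a (f v)) ≤ y

/-- the constant of products of functions of degrees `d`, `d'` -/
def cp (m k : ℕ) : ℝ := (20 * m) ^ k

/-- the loss per stage -/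
def Gam (m K : ℕ) : ℝ := (20 * m) ^ 10 * K

/-! ### Block E -/

/-- the degrees into the types -/
def dgo (G : SimpleGraph V) (N Δ : ℕ) (χ : V → Ty N) (v : V) : Prop :=
  ∀ t, |((univ.filter (fun u => G.Adj v u ∧ χ u = t)).card : ℝ) - (Δ : ℝ) / mT N| ≤
    (Δ : ℝ) / mT N / N ^ 9

/-- a pair of sets that violates the expansion -/
structure Vio (G : SimpleGraph V) (N Δ : ℕ) (χ : V → Ty N) (v : V) (t t' : Ty N) (S S' : Finset V) :
    Prop where
  ne : t ≠ t'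
  s1 : S ⊆ bl G v (8 * N ^ 3)
  s2 : S' ⊆ bl G v (8 * N ^ 3)
  t1 : ∀ x ∈ S, χ x = t
  t2 : ∀ x ∈ S', χ x = t'
  c1 : S.card ≤ Δ ^ 12
  c2 : S'.card ≤ Δ ^ 12
  vi : (1 - 1 / (100 * N)) * ((Δ : ℝ) / mT N) * (((S.card : ℝ) + S'.card) / 2) < (ee G S S' : ℝ)
  dg : ∀ x ∈ bl G v (8 * N ^ 3 + 1), dgo G N Δ χ x

/-- the set detected by a sample -/
def Zs (G : SimpleGraph V) (N : ℕ) (Sg : Finset V) : Finset V :=
  univ.filter (fun y => 3 / 4 * (N : ℝ) ^ 5 ≤ ((Sg.filter (fun u => G.Adj y u)).card : ℝ))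

/-- the bad event for fixed samples -/
def Bad (G : SimpleGraph V) (N Δ : ℕ) (χ : V → Ty N) (t t' : Ty N) (Q : ℝ) (Z Z' : Finset V) : Prop :=
  ((Z.filter (fun x => χ x = t)).card : ℝ) < Z.card / mT N - Q / (10 * N) ∨
  ((Z'.filter (fun x => χ x = t')).card : ℝ) < Z'.card / mT N - Q / (10 * N) ∨
  (ee G Z Z' : ℝ) / mT N ^ 2 + Q / (10 * N) * ((Δ : ℝ) / mT N) <
    (ee G (Z.filter (fun x => χ x = t)) (Z'.filter (fun x => χ x = t')) : ℝ)

end

end Pool.Agent.H2.LN.HH
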