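import Pool.Agent.H2.LN.Defs

/-!
Targets of the blocks of project LN (interface only).
-/

set_option autoImplicit false

namespace Pool.Agent.H2.LN.Top

open Finset Classical
open Pool.Agent.H65.GI

/-- Block R: regularisation. -/
def RegP : Prop := ∀ N Δ : ℕ, Pm N Δ → ∀ (V : Type) [Fintype V] (G : SimpleGraph V),
  (∀ v, (univ.filter (fun u => G.Adj v u)).card ≤ Δ) →
  (∀ S : Finset V, S.card ≤ Δ ^ 13 → (ee G S S : ℝ) ≤ ((Δ : ℝ) - 2 * Δ / N) * S.card) →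
  ∃ (W : Type) (_ : Fintype W) (G' : SimpleGraph W) (φ : V → W), Function.Injective φ ∧
    (∀ u v, G.Adj u v → G'.Adj (φ u) (φ v)) ∧ Reg G' Δ ∧ Gap G' N Δ

/-- Blocks E and H: random types. -/
def EHP : Prop := ∀ N Δ : ℕ, Pm N Δ → ∀ (V : Type) [Fintype V] (G : SimpleGraph V), Reg G Δ →
  Gap G N Δ → ∃ χ : V → Ty N, EHo G N Δ χ

/-- Block B: the exact base. -/
def BasP : Prop := ∀ N Δ : ℕ, Pm N Δ → ∀ (V : Type) [Fintype V] (G : SimpleGraph V), Reg G Δ →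
  ∀ χ : V → Ty N, EHo G N Δ χ → ∃ (s : ℕ) (D : Finset V) (H : Ty N → V → Finset V)
    (cl : Fin s → Ty N) (crd : Fin s → Fin (k0 N)) (M : Fin s → V → V) (z : Fin (k0 N)),
    Base G N Δ s χ D H cl crd M z

/-- The conclusion of the colouring theorem for given families. -/
structure ColE {V : Type} [Fintype V] (G : SimpleGraph V) (N Δ sc : ℕ) {ι : Type} (f : V → ι → V → ℝ)
    (h : V → ι → V → V → ℝ) (Fr : V → ι → Finset (V × Fin sc)) (c : V → Fin sc) (φ : ℝ) : Prop where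
  prop : ∀ u v, G.Adj u v → c u ≠ c v
  p0 : 0 ≤ φ
  p1 : φ ≤ N ^ 14 / Δ
  t1 : ∀ v i g, |(∑ x, if c x = g then f v i x else 0) - φ * ∑ x, f v i x| ≤ (Δ : ℝ) ^ (-(19 : ℝ) / 5)
  t2 : ∀ v i g g', (∑ x, ∑ y, if c x = g ∧ c y = g' then h v i x y else 0) ≤
    (N ^ 14 / Δ : ℝ) ^ 2 * (∑ x, ∑ y, h v i x y) + (Δ : ℝ) ^ (-(9 : ℝ) / 2)
  t3 : ∀ v i, ((Fr v i).filter (fun x => c x.1 = x.2)).card ≤ N ^ 16

/-- Conditions on the families of tests of the colouring theorem. -/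
structure Fam {V : Type} [Fintype V] (G : SimpleGraph V) (N Δ sc : ℕ) {ι : Type} (f : V → ι → V → ℝ)
    (h : V → ι → V → V → ℝ) (Fr : V → ι → Finset (V × Fin sc)) : Prop where
  lin : ∀ v i, LinF G N Δ v (f v i)
  bil : ∀ v i, BilF G N Δ v (h v i)
  fr1 : ∀ v i, (Fr v i).card ≤ 2 * Δ
  fr2 : ∀ v i, ∀ x ∈ Fr v i, x.1 ∈ bl G v (60 * N ^ 3)

/-- Block C: Theorem C. -/
def ColP : Prop := ∀ N Δ : ℕ, Pm N Δ → ∀ (V : Type) [Fintype V] (G : SimpleGraph V), Reg G Δ →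
  Gap G N Δ → ∀ sc : ℕ, (Δ : ℝ) - Δ / N ^ 30 ≤ sc → sc ≤ Δ →
  ∀ (ι : Type) [Fintype ι], (Fintype.card ι : ℝ) ≤ Real.exp (N ^ 4) →
  ∀ (f : V → ι → V → ℝ) (h : V → ι → V → V → ℝ) (Fr : V → ι → Finset (V × Fin sc)),
  Fam G N Δ sc f h Fr → ∃ (c : V → Fin sc) (φ : ℝ), ColE G N Δ sc f h Fr c φ

/-- Block V3: Res. -/
def ResP : Prop := ∀ N Δ : ℕ, Pm N Δ → ∀ (V : Type) [Fintype V] (G : SimpleGraph V), Reg G Δ →
  ∀ (s : ℕ) (χ : V → Ty N) (D : Finset V) (H : Ty N → V → Finset V) (cl : Fin s → Ty N)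
    (crd : Fin s → Fin (k0 N)) (M : Fin s → V → V) (z : Fin (k0 N)), Base G N Δ s χ D H cl crd M z →
  ∀ p : ℕ, 1 ≤ p → p ≤ N → ∀ c : V → ℕ, (∀ v, p ≤ c v + 1 ∧ c v + p ≤ s) →
  (∀ v, (univ.filter (fun α : Fin s => Wc p c α (M α v))).card ≤ N ^ 20) →
  ∀ (ι : Type) [Fintype ι], (Fintype.card ι : ℝ) ≤ Real.exp (N ^ 4) →
  ∀ (f : V → ι → V → ℝ) (h : V → ι → V → V → ℝ), (∀ v i, LinF G N Δ v (f v i)) →
  (∀ v i, BilF G N Δ v (h v i)) → ∃ (Rc : Finset V) (al : V → Fin s),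
    ResE G N Δ s p c D H M f h Rc al

/-- The final matchings of the labels. -/
structure Mat {V : Type} [Fintype V] (G : SimpleGraph V) {s : ℕ} (p : ℕ) (c : V → ℕ) (D : Finset V)
    (M : Fin s → V → V) (Rc : Finset V) (al : V → Fin s) (M' : Fin s → V → V) : Prop where
  inv : ∀ α v, M' α (M' α v) = v
  adj : ∀ α v, M' α v ≠ v → G.Adj v (M' α v)
  dis : ∀ α β v, α ≠ β → M' α v ≠ v → M' α v ≠ M' β v
  avo : ∀ (α : Fin s) v, Wc p c α v → M' α v = v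
  cov : ∀ (α : Fin s) v, ¬ Wc p c α v → M' α v = v → M α v = v ∨ Rs G p c D M Rc al α v
  x : ∀ (α : Fin s) v, M α v ≠ v → ¬ Wc p c α v → ¬ Wc p c α (M α v) → v ∈ Rc → M α v ∈ Rc →
    M' α v = M α v

/-- Block L: transport. -/
def TrnP : Prop := ∀ N Δ : ℕ, Pm N Δ → ∀ (V : Type) [Fintype V] (G : SimpleGraph V), Reg G Δ →
  ∀ (s : ℕ) (χ : V → Ty N) (D : Finset V) (H : Ty N → V → Finset V) (cl : Fin s → Ty N)
    (crd : Fin s → Fin (k0 N)) (M : Fin s → V → V) (z : Fin (k0 N)), Base G N Δ s χ D H cl crd M z →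
  ∀ p : ℕ, 1 ≤ p → p ≤ N → ∀ sc : ℕ, sc + 2 * p = s + 2 →
  ∃ (ι : Type) (_ : Fintype ι) (f : V → ι → V → ℝ) (h : V → ι → V → V → ℝ)
    (Fr : V → ι → Finset (V × Fin sc)), (Fintype.card ι : ℝ) ≤ Real.exp (N ^ 4) ∧
    Fam G N Δ sc f h Fr ∧
  ∀ (c0 : V → Fin sc) (φ : ℝ), ColE G N Δ sc f h Fr c0 φ →
  ∀ c : V → ℕ, (∀ v, c v = c0 v + (p - 1)) →
  (∀ v, (univ.filter (fun α : Fin s => Wc p c α (M α v))).card ≤ N ^ 20) ∧
  ∃ (ι' : Type) (_ : Fintype ι') (f' : V → ι' → V → ℝ) (h' : V → ι' → V → V → ℝ),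
    (Fintype.card ι' : ℝ) ≤ Real.exp (N ^ 4) ∧ (∀ v i, LinF G N Δ v (f' v i)) ∧
    (∀ v i, BilF G N Δ v (h' v i)) ∧
  ∀ (Rc : Finset V) (al : V → Fin s), ResE G N Δ s p c D H M f' h' Rc al →
  ∃ M' : Fin s → V → V, Mat G p c D M Rc al M'

/-- Section V2: the last labels. -/
def FinP : Prop := ∀ N Δ : ℕ, Pm N Δ → ∀ (V : Type) [Fintype V] (G : SimpleGraph V), Reg G Δ →
  ∀ (s : ℕ) (χ : V → Ty N) (D : Finset V) (H : Ty N → V → Finset V) (cl : Fin s → Ty N)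
    (crd : Fin s → Fin (k0 N)) (M : Fin s → V → V) (z : Fin (k0 N)), Base G N Δ s χ D H cl crd M z →
  ∀ p : ℕ, 1 ≤ p → p ≤ N → ∀ c : V → ℕ, (∀ v, p ≤ c v + 1 ∧ c v + p ≤ s) →
  (∀ u v, G.Adj u v → c u ≠ c v) →
  ∀ (Rc : Finset V) (al : V → Fin s) (M' : Fin s → V → V), Mat G p c D M Rc al M' →
  Pool.Agent.H70.HY.HYLab G Δ p

/-- The theorem for regular graphs with explicit parameters. -/
def MainP : Prop := ∀ N Δ : ℕ, Pm N Δ → ∀ (V : Type) [Fintype V] (G : SimpleGraph V), Reg G Δ →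
  Gap G N Δ → ∀ p : ℕ, 1 ≤ p → p ≤ N → Pool.Agent.H70.HY.HYLab G Δ p

/-- The final theorem. -/
def Final : Prop := ∃ Δ0 : ℕ, ∀ (V : Type) [Fintype V] (G : SimpleGraph V) (Δ : ℕ), Δ0 ≤ Δ →
  (∀ v, (univ.filter (fun u => G.Adj v u)).card ≤ Δ) →
  (∀ S : Finset V, S.card ≤ Δ ^ 13 →
    (ee G S S : ℝ) ≤ ((Δ : ℝ) - (Δ : ℝ) ^ (1 - 1 / 40001 : ℝ)) * S.card) →
  ∀ p : ℕ, 1 ≤ p → (p : ℝ) ≤ (Δ : ℝ) ^ (1 / 40001 : ℝ) → Pool.Agent.H70.HY.HYLab G Δ p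

end Pool.Agent.H2.LN.Top
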