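import Pool.Agent.H2.LN.Top

/-!
MP_b8729f, project LN, block L (transport): definitions.
-/

set_option autoImplicit false
set_option linter.unusedSectionVars false

namespace Pool.Agent.H2.LN

open Finset Classical
open Pool.Agent.H65.GI

noncomputable section

/-- The context of block L: the base and the parameters. -/
structure Cx (V : Type) [Fintype V] where
  G : SimpleGraph V
  N : ℕ
  Δ : ℕ
  s : ℕ
  p : ℕ
  sc : ℕ
  χ : V → Ty N
  D : Finset V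
  H : Ty N → V → Finset V
  cl : Fin s → Ty N
  crd : Fin s → Fin (k0 N)
  M : Fin s → V → V
  z : Fin (k0 N)
  pm : Pm N Δ
  reg : Reg G Δ
  base : Base G N Δ s χ D H cl crd M z
  hp1 : 1 ≤ p
  hp2 : p ≤ N
  hsc : sc + 2 * p = s + 2

namespace Cx

variable {V : Type} [Fintype V] (X : Cx V)

/-- the number of steps -/
def n : ℕ := 9 * X.N ^ 3 + 1

/-- the Z-layers -/
def zl (k : ℕ) : ℕ := (k + 1) * X.N ^ 3 + 1

/-- `d0` as a real number -/
def dd : ℝ := (d0 X.N X.Δ : ℝ)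

/-- the coins take values in `Fin q` -/
def q : ℕ := ⌊(X.Δ : ℝ) ^ ((3 : ℝ) / 5)⌋₊

/-- the probability of a coin -/
def th : ℝ := 1 / X.q

def kd : ℕ := X.N ^ 52

/-- `Δ ^ x` -/
def pw (x : ℝ) : ℝ := (X.Δ : ℝ) ^ x

/-- the side of `v` with respect to `α` -/
def sd (α : Fin X.s) (v : V) : ZMod 2 := (X.χ v).1 (X.crd α)

/-- the reserve class of the step `j` in direction `δ` -/
def kap (α : Fin X.s) (δ : ZMod 2) (j : ℕ) : Ty X.N :=
  if j = 0 then (ev (X.crd α) + ev X.z, ((δ.val : ℕ) : ZMod (X.N ^ 4 + 1)))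
  else (ev (X.crd α), ((2 * j + δ.val : ℕ) : ZMod (X.N ^ 4 + 1)))

/-- reserve neighbours of the step `j` in direction `δ` -/
def R (α : Fin X.s) (δ : ZMod 2) (j : ℕ) (v : V) : Finset V := X.H (X.kap α δ j) v

/-! ### Kernels -/

/-- from functions on the receivers of the step `j` to functions on the senders -/
def A (α : Fin X.s) (δ : ZMod 2) (j : ℕ) (P : V → ℝ) (a : V) : ℝ := (∑ b ∈ X.R α δ j a, P b) / X.dd

/-- a function on the senders of layer `j + 1` as a function on the receivers of step `j` -/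
def mv (α : Fin X.s) (F : V → ℝ) (x : V) : ℝ := if X.M α x ≠ x then F (X.M α x) else 0

/-- restriction to the nodes -/
def nd (α : Fin X.s) (F : V → ℝ) (x : V) : ℝ := if X.M α x ≠ x then F x else 0

/-- restriction to `D_α` -/
def dv (α : Fin X.s) (F : V → ℝ) (x : V) : ℝ := if X.M α x = x then F x else 0

/-- pull back from the senders of layer `j + 1` to those of layer `j` -/
def T (α : Fin X.s) (δ : ZMod 2) (j : ℕ) (F : V → ℝ) : V → ℝ := X.A α δ j (X.mv α F)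

/-- pull back from layer `j` to layer `0` -/
def T0 (α : Fin X.s) (δ : ZMod 2) : ℕ → (V → ℝ) → V → ℝ
  | 0, F => F
  | j + 1, F => T0 α δ j (X.T α δ j F)

/-- Receiver functions: `RF α δ j r P`: `P` is a function on the receivers of step `j` in direction `δ`, obtained from a
point in `r` steps. -/
inductive RF (α : Fin X.s) : ZMod 2 → ℕ → ℕ → (V → ℝ) → Prop
  | pt (δ : ZMod 2) (j : ℕ) (b : V) : j < X.n → X.M α b ≠ b → X.sd α b = δ + 1 →
      RF α δ j 0 (fun x => if x = b then 1 else 0)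
  | st (δ : ZMod 2) (j r : ℕ) (P : V → ℝ) : RF α δ (j + 1) r P →
      RF α δ j (r + 1) (X.mv α (X.A α δ (j + 1) P))
  | tn (k r : ℕ) (P : V → ℝ) : k < 8 → RF α 0 (X.zl k) r P →
      RF α 1 (X.zl k - 1) (r + 1) (X.nd α (X.A α 0 (X.zl k) P))

/-- `N ^ 3` -/
def n3 : ℕ := X.N ^ 3

/-! ### The vertex colours: `c`, windows, error functions -/

variable (c : V → ℕ)

/-- the colours whose window contains `α` -/
def Ia (α : ℕ) : Finset (Fin X.sc) :=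
  univ.filter (fun g => (g : ℕ) + (X.p - 1) < α + X.p ∧ α < (g : ℕ) + (X.p - 1) + X.p)

/-- the mean density of `W_α` -/
def ub (φ : ℝ) (α : ℕ) : ℝ := φ * ((X.Ia α).card : ℝ)

/-- spoiled by `W` -/
def disW (α : Fin X.s) : Finset V :=
  univ.filter (fun v => Wc X.p c α v ∨ Wc X.p c α (X.M α v))

/-- spoiled by two coins of `Res` -/
def disX (Rc : Finset V) (α : Fin X.s) : Finset V :=
  univ.filter (fun v => X.M α v ≠ v ∧ v ∈ Rc ∧ X.M α v ∈ Rc)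

def dis (Rc : Finset V) (α : Fin X.s) : Finset V := X.disW c α ∪ X.disX Rc α

/-- the error function of a receiver function `P` at step `j` caused by the set `B` -/
def gB (B : Finset V) (α : Fin X.s) (δ : ZMod 2) (j : ℕ) (P : V → ℝ) (a : V) : ℝ :=
  2 / X.dd * X.A α δ j P a * ((X.R α δ j a).filter (fun b => b ∈ B)).card +
    (∑ b ∈ (X.R α δ j a).filter (fun b => b ∈ B), P b) / X.dd

/-- the error function caused by `D` -/
def gD (α : Fin X.s) (δ : ZMod 2) (j : ℕ) (P : V → ℝ) (a : V) : ℝ :=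
  if a ∈ X.D then 2 / X.dd * X.A α δ j P a else 0

/-- the contribution of `y ∈ W` (or of `y` and its partner in `Rc`) to the error function -/
def gy (α : Fin X.s) (δ : ZMod 2) (j : ℕ) (P : V → ℝ) (y a : V) : ℝ :=
  (if y ∈ X.R α δ j a then 2 / X.dd * X.A α δ j P a + P y / X.dd else 0) +
    (if X.M α y ≠ y ∧ X.M α y ∈ X.R α δ j a then 2 / X.dd * X.A α δ j P a + P (X.M α y) / X.dd else 0)

/-- the bilinear function: `x` is in `W` (or `Res`) and its partner is a sender of layer `0`; `y` spoils step `j` -/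
def cb (α : Fin X.s) (δ : ZMod 2) (j : ℕ) (P : V → ℝ) (x y : V) : ℝ :=
  X.mv α (X.T0 α δ j (X.gy α δ j P y)) x

/-- the complete error function -/
def gE (Rc : Finset V) (α : Fin X.s) (δ : ZMod 2) (j : ℕ) (P : V → ℝ) (a : V) : ℝ :=
  X.gB (X.dis c Rc α) α δ j P a + X.gD α δ j P a

/-- the error functions and their pull-backs: sender functions of layer `j` -/
inductive EF (Rc : Finset V) (α : Fin X.s) : ZMod 2 → ℕ → (V → ℝ) → Prop
  | bs (δ : ZMod 2) (j r : ℕ) (P : V → ℝ) : X.n3 ≤ r → X.RF α δ j r P →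
      EF Rc α δ j (X.gE c Rc α δ j P)
  | pl (δ : ZMod 2) (j : ℕ) (F : V → ℝ) : EF Rc α δ (j + 1) F → EF Rc α δ j (X.T α δ j F)

/-! ### The numbers `a_k`, `β_k`, the injections -/

def aa : ℕ → ℝ
  | 0 => X.pw (-(29 : ℝ) / 50)
  | k + 1 => max (X.pw (-(3 : ℝ) / 20) * aa k) ((X.N : ℝ) ^ 45 * X.pw (-(7 : ℝ) / 5))

def be (k : ℕ) : ℝ := 2 * X.aa k

/-- number of the block of the layer `j`: `0` for `j < zl 0`, `k + 1` for `zl k ≤ j < zl (k + 1)` -/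
def bk (j : ℕ) : ℕ := (j - 1) / X.N ^ 3

/-- the mass injected at the vertices of `D_α` in layer `j ≥ 1` -/
def inj (u : ℝ) (j : ℕ) : ℝ := if X.bk j = 0 then u / X.th else X.be (X.bk j - 1)

/-! ### States: senders and masses -/

/-- the coins of a layer -/
abbrev Co : Type := V × Fin X.s → Fin X.q

/-- the instance with classical decidability, as in the general rules for `pr`, `ex` -/
instance (priority := 2000) coFt : Fintype (V × Fin X.s → Fin X.q) :=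
  @Pi.instFintype (V × Fin X.s) (fun _ => Fin X.q) (fun a b => Classical.propDecidable (a = b)) _ _

/-- `(v, α)` is active; a node of `α` has one coin (that of the vertex on side `1`) -/
def cn (ω : X.Co) (α : Fin X.s) (v : V) : Prop :=
  ((ω (if X.sd α v = 1 ∨ X.M α v = v then v else X.M α v, α) : Fin X.q) : ℕ) = 0

/-- the senders and the mass fields (`0`: main field, `1`: field of `Res`) in a layer, for both directions and all
labels -/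
structure St where
  S : ZMod 2 → Fin X.s → Finset V
  m : Fin 2 → ZMod 2 → Fin X.s → V → ℝ

variable (ds : Fin X.s → Finset V)

/-- the receivers used by the sender `a` at step `j` -/
def GG (j : ℕ) (t : X.St) (ω : X.Co) (δ : ZMod 2) (α : Fin X.s) (a : V) : Finset V :=
  (X.R α δ j a).filter (fun b => b ∉ ds α ∧ X.cn ω α b ∧
    ∀ α', α' ≠ α → X.crd α' = X.crd α → a ∈ t.S δ α' → ¬ X.cn ω α' b)

/-- the mass that arrives at `b` -/
def arr (j : ℕ) (t : X.St) (ω : X.Co) (τ : Fin 2) (δ : ZMod 2) (α : Fin X.s) (b : V) : ℝ :=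
  ∑ a ∈ (t.S δ α).filter (fun a => b ∈ X.GG ds j t ω δ α a),
    t.m τ δ α a / ((X.GG ds j t ω δ α a).card : ℝ)

/-- the expected arrival -/
def Y (j : ℕ) (t : X.St) (τ : Fin 2) (δ : ZMod 2) (α : Fin X.s) (b : V) : ℝ :=
  (∑ a ∈ (X.R α δ j b).filter (fun a => a ∈ t.S δ α), t.m τ δ α a) / (X.th * X.dd)

/-- the new senders -/
def nS (ω : X.Co) (δ : ZMod 2) (α : Fin X.s) : Finset V :=
  univ.filter (fun v => X.sd α v = δ ∧ v ∉ ds α ∧ X.cn ω α v)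

/-- is `j` a Z-layer -/
def isZ (j : ℕ) : Prop := ∃ k < 8, j = X.zl k

/-- the next state: from layer `j` to layer `j + 1` with the coins `ω` of layer `j + 1` -/
def nxt (u : Fin X.s → ℝ) (j : ℕ) (t : X.St) (ω : X.Co) : X.St where
  S := X.nS ds ω
  m := fun τ δ α v => if v ∈ X.nS ds ω δ α then
    (if X.M α v = v then (if τ = 0 then X.inj (u α) (j + 1) else 0)
      else if τ = 0 ∧ X.isZ (j + 1) then
        (if δ = 0 then X.be (X.bk (j + 1) - 1) + X.arr ds j t ω 0 0 α (X.M α v) -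
          X.arr ds j t ω 0 1 α v else X.be (X.bk (j + 1) - 1))
      else X.arr ds j t ω τ δ α (X.M α v)) else 0

/-- the states of all layers -/
def sq (u : Fin X.s → ℝ) (t0 : X.St) (ω : ℕ → X.Co) : ℕ → X.St
  | 0 => t0
  | j + 1 => X.nxt ds u j (sq u t0 ω j) (ω (j + 1))

/-- the conditions for the senders of layer `j` -/
structure TT (j : ℕ) (t : X.St) : Prop where
  sd : ∀ δ α, ∀ a ∈ t.S δ α, X.sd α a = δ
  sp : ∀ τ δ α a, a ∉ t.S δ α → t.m τ δ α a = 0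
  t1 : ∀ δ v, ((univ.filter (fun α => v ∈ t.S δ α)).card : ℝ) ≤ 4 * X.pw (2 / 5)
  t2 : ∀ δ α α' b, α ≠ α' → X.crd α = X.crd α' →
    ((X.R α δ j b).filter (fun a => a ∈ t.S δ α ∧ a ∈ t.S δ α')).card ≤ X.kd
  t3 : ∀ δ α b, (((X.R α δ j b).filter (fun a => a ∈ t.S δ α)).card : ℝ) ≤
    X.th * X.dd * (1 + X.pw (-(39 : ℝ) / 200))

/-- the good events of the step `j → j + 1`, `𝓕`: test functions -/
structure Gd1 (j : ℕ) (t : X.St) (ω : X.Co) (𝓕 : (V → ℝ) → Prop) : Prop where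
  g : ∀ δ α, ∀ a ∈ t.S δ α, |((X.GG ds j t ω δ α a).card : ℝ) - X.th * X.dd| ≤
    X.th * X.dd * X.pw (-(39 : ℝ) / 200)
  c : ∀ δ α b, (((X.R α δ j b).filter (fun a => a ∈ t.S δ α ∧
    ∃ α', α' ≠ α ∧ X.crd α' = X.crd α ∧ a ∈ t.S δ α' ∧ X.cn ω α' b)).card : ℝ) ≤
    60 * X.pw (1 / 5) / mT X.N
  t1 : ∀ δ v, ((univ.filter (fun α => v ∈ X.nS ds ω δ α)).card : ℝ) ≤ 4 * X.pw (2 / 5)
  t2 : ∀ δ α α' b, α ≠ α' → X.crd α = X.crd α' →
    ((X.R α δ (j + 1) b).filter (fun a => a ∈ X.nS ds ω δ α ∧ a ∈ X.nS ds ω δ α')).card ≤ X.kd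
  t3 : ∀ δ α b, (((X.R α δ (j + 1) b).filter (fun a => a ∈ X.nS ds ω δ α)).card : ℝ) ≤
    X.th * X.dd * (1 + X.pw (-(39 : ℝ) / 200))
  y : ∀ τ δ α b (B : ℝ), (∀ δ α a, |t.m τ δ α a| ≤ B) →
    |(∑ a ∈ (X.R α δ (j + 1) b).filter (fun a => a ∈ X.nS ds ω δ α),
        X.mv α (X.Y j t τ δ α) a) / (X.th * X.dd) -
      X.A α δ (j + 1) (X.mv α (X.Y j t τ δ α)) b| ≤ X.pw (-(39 : ℝ) / 200) * B
  p : ∀ f, 𝓕 f → ∀ τ δ α (B : ℝ), (∀ δ α a, |t.m τ δ α a| ≤ B) →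
    |(∑ b, f b * X.arr ds j t ω τ δ α b) - ∑ a ∈ t.S δ α, t.m τ δ α a *
      ((∑ b ∈ (X.R α δ j a).filter (fun b => b ∉ ds α), f b) /
        (((X.R α δ j a).filter (fun b => b ∉ ds α)).card : ℝ))| ≤ X.pw (-(19 : ℝ) / 5) / 2 * B
  h : ∀ f, 𝓕 f → ∀ δ α, |(∑ x ∈ X.nS ds ω δ α, f x) -
    X.th * ∑ x ∈ univ.filter (fun x => X.sd α x = δ ∧ x ∉ ds α), f x| ≤ X.pw (-(19 : ℝ) / 5)

/-- `⟨F, μ⟩` -/
def pa (F m : V → ℝ) : ℝ := ∑ v, F v * m v

/-- the initial state -/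
def st0 (φ : ℝ) (Rc : Finset V) (al : V → Fin X.s) : X.St where
  S := fun δ α => univ.filter (fun v => X.sd α v = δ ∧ ¬ Wc X.p c α v ∧
    (X.M α v = v ∨ Wc X.p c α (X.M α v) ∨ Rs X.G X.p c X.D X.M Rc al α (X.M α v)))
  m := fun τ δ α v => if X.sd α v = δ ∧ ¬ Wc X.p c α v then
      (if τ = 0 then (if X.M α v = v then X.ub φ α else if Wc X.p c α (X.M α v) then 1 else 0)
        else if Rs X.G X.p c X.D X.M Rc al α (X.M α v) then 1 / 16 else 0)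
    else 0

/-- the test functions of the steps -/
inductive TF (Rc : Finset V) : (V → ℝ) → Prop
  | rc (α : Fin X.s) (δ : ZMod 2) (j r : ℕ) (P : V → ℝ) : X.n3 ≤ r → X.RF α δ j r P → TF Rc P
  | em (α : Fin X.s) (δ : ZMod 2) (j : ℕ) (F : V → ℝ) : X.EF c Rc α δ j F → TF Rc (X.mv α F)
  | ls (α : Fin X.s) (δ : ZMod 2) (j r : ℕ) (P : V → ℝ) : X.n3 ≤ r + 1 → X.RF α δ j r P →
      TF Rc (X.A α δ j P)
  | ld (α : Fin X.s) (δ : ZMod 2) (j r : ℕ) (P : V → ℝ) : X.n3 ≤ r + 1 → X.RF α δ j r P →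
      TF Rc (X.dv α (X.A α δ j P))
  | es (α : Fin X.s) (δ : ZMod 2) (j : ℕ) (F : V → ℝ) : X.EF c Rc α δ j F → TF Rc F
  | ed (α : Fin X.s) (δ : ZMod 2) (j : ℕ) (F : V → ℝ) : X.EF c Rc α δ j F → TF Rc (X.dv α F)

/-- What the colouring gives: `W_α` is pseudo-random with respect to the static test functions. -/
structure S1 (φ : ℝ) : Prop where
  p0 : 0 ≤ φ
  p1 : φ ≤ X.N ^ 14 / X.Δ
  rg : ∀ v, X.p ≤ c v + 1 ∧ c v + X.p ≤ X.s
  pr : ∀ u v, X.G.Adj u v → c u ≠ c v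
  -- linear tests
  l1 : ∀ α δ r P, X.RF α δ 0 r P → X.n3 ≤ r + 1 →
    |(∑ x, if Wc X.p c α x then X.mv α (X.A α δ 0 P) x else 0) -
      X.ub φ α * ∑ x, X.mv α (X.A α δ 0 P) x| ≤ 2 * X.N * X.pw (-(19 : ℝ) / 5)
  l2 : ∀ α δ j r P, X.RF α δ j r P → X.n3 ≤ r + 1 →
    |(∑ x, if Wc X.p c α x then X.dv α (X.A α δ j P) x else 0) -
      X.ub φ α * ∑ x, X.dv α (X.A α δ j P) x| ≤ 2 * X.N * X.pw (-(19 : ℝ) / 5)
  l3 : ∀ α δ j r P, X.RF α δ j r P → X.n3 ≤ r →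
    |(∑ x, if Wc X.p c α x then X.mv α (X.T0 α δ j (X.gD α δ j P)) x else 0) -
      X.ub φ α * ∑ x, X.mv α (X.T0 α δ j (X.gD α δ j P)) x| ≤ 2 * X.N * X.pw (-(19 : ℝ) / 5)
  -- bilinear tests
  b1 : ∀ α δ r P, X.RF α δ 0 r P → X.n3 ≤ r + 1 →
    (∑ x, if Wc X.p c α x ∧ Wc X.p c α (X.M α x) then X.mv α (X.A α δ 0 P) x else 0) ≤
      X.N ^ 31 / (X.Δ : ℝ) ^ 2
  b2 : ∀ α δ j r P, X.RF α δ j r P → X.n3 ≤ r →
    (∑ x, ∑ y, if Wc X.p c α x ∧ Wc X.p c α y then X.cb α δ j P x y else 0) ≤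
      X.N ^ 31 / (X.Δ : ℝ) ^ 2
  -- local bounds
  k1 : ∀ α δ j, j ≤ X.n → ∀ v, ((X.R α δ j v).filter (fun b => b ∈ X.disW c α)).card ≤ X.N ^ 20
  k2 : ∀ v, (univ.filter (fun α : Fin X.s => Wc X.p c α (X.M α v))).card ≤ X.N ^ 20

/-- `ρ` -/
def rho : ℝ := 1 / ((rq X.Δ X.s : ℝ) * X.s)

/-- What the choice of `Res` gives. -/
structure S2 (φ : ℝ) (Rc : Finset V) (al : V → Fin X.s) : Prop where
  ka : ∀ v, (univ.filter (fun u => X.G.Adj v u ∧ u ∈ Rc)).card ≤ X.N ^ 51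
  kb : ∀ α δ j v, ((X.R α δ j v).filter (fun u => Rs X.G X.p c X.D X.M Rc al α u ∨
    Rs X.G X.p c X.D X.M Rc al α (X.M α u))).card ≤ X.N ^ 5
  -- the sources
  l1 : ∀ α δ r P, X.RF α δ 0 r P → X.n3 ≤ r + 1 →
    X.rho / 2 * (∑ x, if Gd X.p c X.D X.M α x then X.mv α (X.A α δ 0 P) x else 0) - X.pw (-3) ≤
      ∑ x, if Rs X.G X.p c X.D X.M Rc al α x then X.mv α (X.A α δ 0 P) x else 0
  u1 : ∀ α δ r P, X.RF α δ 0 r P → X.n3 ≤ r + 1 →
    (∑ x, if Rs X.G X.p c X.D X.M Rc al α x then X.mv α (X.A α δ 0 P) x else 0) ≤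
      2 * X.rho * (∑ x, X.mv α (X.A α δ 0 P) x) + X.pw (-3)
  u2 : ∀ α δ j r P, X.RF α δ j r P → X.n3 ≤ r →
    (∑ x, if Rs X.G X.p c X.D X.M Rc al α x then
      X.mv α (X.T0 α δ j (X.gB (X.disW c α) α δ j P)) x else 0) ≤
      2 * X.rho * (∑ x, X.mv α (X.T0 α δ j (X.gB (X.disW c α) α δ j P)) x) + X.pw (-3)
  u3 : ∀ α δ j r P, X.RF α δ j r P → X.n3 ≤ r →
    (∑ x, if Rs X.G X.p c X.D X.M Rc al α x then
      X.mv α (X.T0 α δ j (X.gD α δ j P)) x else 0) ≤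
      2 * X.rho * (∑ x, X.mv α (X.T0 α δ j (X.gD α δ j P)) x) + X.pw (-3)
  -- two coins at a node, one window
  d : ∀ α δ j r P, X.RF α δ j r P → X.n3 ≤ r →
    (∑ x, ∑ y, if Wc X.p c α x ∧ y ∈ Rc ∧ X.M α y ∈ Rc ∧ X.M α y ≠ y then X.cb α δ j P x y else 0) ≤
      X.N ^ 30 / (X.Δ : ℝ) ^ 2
  -- two coins at a node, one source
  e : ∀ α δ j r P, X.RF α δ j r P → X.n3 ≤ r →
    (∑ x, ∑ y, if Rs X.G X.p c X.D X.M Rc al α x ∧ y ∈ Rc ∧ X.M α y ∈ Rc ∧ X.M α y ≠ y then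
      X.cb α δ j P x y else 0) ≤ X.N ^ 102 * X.pw (-3)

/-- few spoiled vertices -/
def KD (X : Cx V) (c : V → ℕ) (Rc : Finset V) : Prop :=
  ∀ α δ j v, j ≤ X.n → ((X.R α δ j v).filter (fun b => b ∈ X.dis c Rc α)).card ≤ X.kd

/-- the coordinate of the coin of `v` for `α` -/
def rp (X : Cx V) (α : Fin X.s) (v : V) : V :=
  if X.sd α v = 1 ∨ X.M α v = v then v else X.M α v

end Cx

/-- Everything that is fixed before the analysis of the masses. -/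
structure An {V : Type} [Fintype V] (X : Cx V) where
  c : V → ℕ
  φ : ℝ
  Rc : Finset V
  al : V → Fin X.s
  s1 : X.S1 c φ
  s2 : X.S2 c φ Rc al
  ω : ℕ → X.Co
  ok : ∀ j < X.n, X.TT j (X.sq (X.dis c Rc) (fun α => X.ub φ α) (X.st0 c φ Rc al) ω j) ∧
    X.Gd1 (X.dis c Rc) j (X.sq (X.dis c Rc) (fun α => X.ub φ α) (X.st0 c φ Rc al) ω j) (ω (j + 1))
      (X.TF c Rc)

namespace An

variable {V : Type} [Fintype V] {X : Cx V} (Y : An X)

/-- spoiled vertices -/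
def ds (α : Fin X.s) : Finset V := X.dis Y.c Y.Rc α

/-- the mean density of `W_α` -/
def u (α : Fin X.s) : ℝ := X.ub Y.φ α

/-- the state of layer `j` -/
def t (j : ℕ) : X.St := X.sq Y.ds Y.u (X.st0 Y.c Y.φ Y.Rc Y.al) Y.ω j

/-- senders of layer `j` -/
def S (j : ℕ) (δ : ZMod 2) (α : Fin X.s) : Finset V := (Y.t j).S δ α

/-- masses of layer `j` -/
def m (j : ℕ) (τ : Fin 2) (δ : ZMod 2) (α : Fin X.s) : V → ℝ := (Y.t j).m τ δ α

/-- receivers used by `a` at step `j` -/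
def GG (j : ℕ) (δ : ZMod 2) (α : Fin X.s) (a : V) : Finset V := X.GG Y.ds j (Y.t j) (Y.ω (j + 1)) δ α a

/-- arrivals of step `j` -/
def ar (j : ℕ) (τ : Fin 2) (δ : ZMod 2) (α : Fin X.s) (b : V) : ℝ :=
  X.arr Y.ds j (Y.t j) (Y.ω (j + 1)) τ δ α b

/-- expected arrivals of step `j` -/
def y (j : ℕ) (τ : Fin 2) (δ : ZMod 2) (α : Fin X.s) (b : V) : ℝ := X.Y j (Y.t j) τ δ α b

/-- active in layer `j + 1` -/
def ac (j : ℕ) (α : Fin X.s) (v : V) : Prop := v ∉ Y.ds α ∧ X.cn (Y.ω (j + 1)) α v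

/-- injection in layer `j` -/
def ij (j : ℕ) (τ : Fin 2) (α : Fin X.s) : ℝ := if τ = 0 then X.inj (Y.u α) j else 0

/-- the invariant of the Z-layer `zl k` -/
structure Iv (k : ℕ) : Prop where
  c : ∀ α r P, X.RF α 0 (X.zl k) r P → X.n3 ≤ r + 1 →
    |Cx.pa (X.A α 0 (X.zl k) P) (Y.m (X.zl k) 0 0 α) - X.th * X.be k * ∑ x, X.A α 0 (X.zl k) P x| ≤
      X.N ^ 36 * X.pw (-2) / 2 + k * X.pw (-(21 : ℝ) / 10)
  e : ∀ α v, v ∈ Y.S (X.zl k) 0 α → |Y.m (X.zl k) 0 0 α v - X.be k| ≤ X.aa k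

/-- the difference of the arrivals at an active node -/
def df (j : ℕ) (α : Fin X.s) (v : V) : ℝ := Y.ar j 0 0 α (X.M α v) - Y.ar j 0 1 α v

/-- The scaling factor of the backward field of `Res` at the receiver `u` of step `n - 1 - i`. -/
def fr (α : Fin X.s) : ℕ → V → ℝ
  | 0, u => if X.M α u ≠ u ∧ Y.ac (X.n - 1) α u then
      (Y.ar (X.n - 1) 1 0 α (X.M α u) + Y.df (X.n - 1) α u) / Y.ar (X.n - 1) 1 1 α u else 1
  | i + 1, u => if X.M α u ≠ u then (∑ w ∈ Y.GG (X.n - 1 - i) 1 α (X.M α u), fr α i w) /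
      ((Y.GG (X.n - 1 - i) 1 α (X.M α u)).card : ℝ) else 1

/-- the scaling factor at the receiver `u` of step `j` -/
def fac (j : ℕ) (δ : ZMod 2) (α : Fin X.s) (u : V) : ℝ :=
  if δ = 1 then Y.fr α (X.n - 1 - j) u else 1

/-- the flow on `v → u` -/
def fl (j : ℕ) (δ : ZMod 2) (α : Fin X.s) (v u : V) : ℝ :=
  if v ∈ Y.S j δ α ∧ u ∈ Y.GG j δ α v then
    (Y.m j 0 δ α v + Y.m j 1 δ α v * Y.fac j δ α u) / ((Y.GG j δ α v).card : ℝ) else 0

/-- outflow -/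
def out (j : ℕ) (δ : ZMod 2) (α : Fin X.s) (v : V) : ℝ := ∑ u, Y.fl j δ α v u

/-- inflow -/
def inf (j : ℕ) (δ : ZMod 2) (α : Fin X.s) (u : V) : ℝ := ∑ v, Y.fl j δ α v u

/-- load -/
def ld (α : Fin X.s) (v : V) : ℝ :=
  ∑ δ : ZMod 2, ∑ j ∈ range X.n, (Y.out j δ α v + Y.inf j δ α v)

/-- the fractional matching -/
def xx (α : Fin X.s) (v w : V) : ℝ :=
  (∑ δ : ZMod 2, ∑ j ∈ range X.n, (Y.fl j δ α v w + Y.fl j δ α w v)) +
    (if X.M α v = w ∧ w ≠ v ∧ ¬ Wc X.p Y.c α v ∧ ¬ Wc X.p Y.c α w then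
      1 - max (Y.ld α v) (Y.ld α w) else 0)

end An

end

end Pool.Agent.H2.LN
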