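import Pool.Agent.H2.LN.Asm
import Pool.Agent.H2.LN.Fin
import Pool.Agent.H2.LN.H.OutE
import Pool.Agent.H2.LN.L.Trn
import Pool.Agent.H33.LN.EH
import Pool.Agent.H33.LN.H6
import Pool.Agent.H33.LN.Wt
import Pool.Agent.H64.LN.Rmn
import Pool.Agent.H64.LN.Bmn
import Pool.Agent.H84.LN.Col
import Pool.Agent.H12.LN.R3
import Pool.Agent.H12.LN.Fin

/-!
The final theorem of project LN.
-/

set_option autoImplicit false

namespace Pool.Agent.H2.LN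

open Finset Classical
open Pool.Agent.H65.GI

theorem main_final : Top.Final :=
  final_of Pool.Agent.H64.LN.reg_main
    (asm (Pool.Agent.H33.LN.ehp HH.outE Pool.Agent.H33.LN.outH Pool.Agent.H33.LN.outW)
      Pool.Agent.H64.LN.bas_main Pool.Agent.H84.LN.colp Pool.Agent.H12.LN.resP trn_main
      Pool.Agent.H12.LN.finP)

/-- the final theorem with graphs of girth at least 29 included -/
theorem girth_gap : ∃ D : ℕ, ∀ Δ : ℕ, D ≤ Δ → ∀ (V : Type) [Fintype V] (G : SimpleGraph V),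
    (29 : ℕ∞) ≤ G.egirth → ∀ S : Finset V, S.card ≤ Δ ^ 13 →
    (ee G S S : ℝ) ≤ ((Δ : ℝ) - (Δ : ℝ) ^ (1 - 1 / 40001 : ℝ)) * S.card := by
  have e1 : ∀ᶠ x : ℝ in Filter.atTop, (2 : ℝ) ≤ x ^ (1 / 40001 : ℝ) :=
    (tendsto_rpow_atTop (by norm_num)).eventually_ge_atTop _
  have e2 : ∀ᶠ x : ℝ in Filter.atTop, (8 : ℝ) ≤ x ^ (1 / 14 : ℝ) :=
    (tendsto_rpow_atTop (by norm_num)).eventually_ge_atTop _
  have e3 := (e1.and e2).and (Filter.eventually_ge_atTop (8 : ℝ))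
  have e4 : ∀ᶠ n : ℕ in Filter.atTop, ((2 : ℝ) ≤ (n : ℝ) ^ (1 / 40001 : ℝ) ∧
      (8 : ℝ) ≤ (n : ℝ) ^ (1 / 14 : ℝ)) ∧ (8 : ℝ) ≤ n :=
    tendsto_natCast_atTop_atTop.eventually e3
  obtain ⟨D, hD⟩ := Filter.eventually_atTop.1 e4
  refine ⟨D, fun Δ hΔ V _ G hg S hS => ?_⟩
  obtain ⟨⟨h1, h2⟩, h3⟩ := hD Δ hΔ
  have hΔ0 : (0 : ℝ) < Δ := by linarith
  have ht0 : (0 : ℝ) ≤ (Δ : ℝ) ^ (13 / 14 : ℝ) := Real.rpow_nonneg hΔ0.le _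
  have hg' : ((2 * 14 + 1 : ℕ) : ℕ∞) ≤ G.egirth := by
    have e : ((2 * 14 + 1 : ℕ) : ℕ∞) = 29 := by norm_num
    rw [e]
    exact hg
  have hm := Pool.Agent.H64.LN.moore G 14 (by norm_num) hg'
    ((Δ : ℝ) ^ (13 / 14 : ℝ)) ht0 S (by
      rw [← Real.rpow_natCast, ← Real.rpow_mul hΔ0.le]
      have : ((13 / 14 : ℝ) * ((14 : ℕ) : ℝ)) = ((13 : ℕ) : ℝ) := by norm_num
      rw [this, Real.rpow_natCast]
      exact_mod_cast hS)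
  have hm' : (ee G S S : ℝ) ≤ (2 + 2 * (Δ : ℝ) ^ (13 / 14 : ℝ)) * S.card := hm
  refine hm'.trans (mul_le_mul_of_nonneg_right ?_ (Nat.cast_nonneg _))
  have h4 : (Δ : ℝ) ^ (1 - 1 / 40001 : ℝ) * 2 ≤ Δ := by
    have h5 : (Δ : ℝ) ^ (1 - 1 / 40001 : ℝ) * (Δ : ℝ) ^ (1 / 40001 : ℝ) = Δ := by
      rw [← Real.rpow_add hΔ0]
      norm_num
    have h6 : 0 ≤ (Δ : ℝ) ^ (1 - 1 / 40001 : ℝ) := Real.rpow_nonneg hΔ0.le _
    nlinarith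
  have h7 : (Δ : ℝ) ^ (13 / 14 : ℝ) * 8 ≤ Δ := by
    have h5 : (Δ : ℝ) ^ (13 / 14 : ℝ) * (Δ : ℝ) ^ (1 / 14 : ℝ) = Δ := by
      rw [← Real.rpow_add hΔ0]
      norm_num
    nlinarith
  linarith

end Pool.Agent.H2.LN
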